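import Pool.Agent.helper83.SB.Spec

/-!
# sb: MNA, monotonicity and right continuity of the Alexandrov functional of the shells (helper18)
-/

set_option autoImplicit false

open scoped Pointwise ContDiff
open MeasureTheory Set Filter Topology

namespace Pool.Agent.helper83.SB

open Pool.Agent.helper83.SC

theorem MNA_cv {m : ℕ} (hPTC : PTC_stmt) (hCV : chart_CV_stmt)
    (b : OrthonormalBasis (Fin (m + 1)) ℝ (E (m + 1))) {K : Set (E (m + 1))} (hK : IsBody K)
    {t : ℝ} (ht : 0 ≤ t) : CV (ft b K t) := by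
  have h1 : CV (chart b K) := hCV b hK
  have h2 : CV (fun y => ‖emb b y‖) := (hPTC b).2.2.2.2.2.2.1
  exact h1.add (h2.smul ht)

theorem MNA_of (hDIAG : B_diag_stmt) (hMONO : B_mono_stmt) (hTA : tendsto_A_stmt)
    (hCV : chart_CV_stmt) (hPTC : PTC_stmt) : MNA_stmt := by
  intro m b K hK φ hφ
  have h2 : CV (fun y => ‖emb b y‖) := (hPTC b).2.2.2.2.2.2.1
  refine ⟨?_, ?_⟩
  · intro s t hs hst
    have hcs := MNA_cv hPTC hCV b hK hs
    have hct := MNA_cv hPTC hCV b hK (hs.trans hst)
    rw [← hDIAG hφ hcs, ← hDIAG hφ hct]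
    apply hMONO hφ (fun _ => hcs)
    intro _
    have h3 : (fun x : E m => ft b K t x - ft b K s x) = fun x => (t - s) • ‖emb b x‖ := by
      funext x
      simp only [ft, smul_eq_mul]
      ring
    rw [h3]
    exact h2.smul (by linarith)
  · apply tendsto_of_seq_tendsto
    intro u hu
    have hu0 : Tendsto u atTop (𝓝 0) := hu.mono_right nhdsWithin_le_nhds
    have hupos : ∀ᶠ k in atTop, 0 < u k := by
      have h4 : ∀ᶠ t in 𝓝[>] (0 : ℝ), 0 < t := self_mem_nhdsWithin
      exact hu.eventually h4
    have hv0 : Tendsto (fun k => max (u k) 0) atTop (𝓝 0) := by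
      have h5 := hu0.max (tendsto_const_nhds (x := (0 : ℝ)))
      simpa using h5
    have h6 : Tendsto (fun k => A φ (ft b K (max (u k) 0))) atTop (𝓝 (A φ (chart b K))) := by
      apply hTA hφ (hCV b hK) (fun k => MNA_cv hPTC hCV b hK (le_max_right _ _))
      intro x
      have h7 : Tendsto (fun k => chart b K x + max (u k) 0 * ‖emb b x‖) atTop
          (𝓝 (chart b K x + 0 * ‖emb b x‖)) :=
        tendsto_const_nhds.add (hv0.mul tendsto_const_nhds)
      simpa [ft] using h7
    refine h6.congr' ?_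
    filter_upwards [hupos] with k hk
    rw [max_eq_left hk.le]
    rfl

end Pool.Agent.helper83.SB

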